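import Mathlib

set_option autoImplicit false

namespace Pool.Agent.Results.MP_e3e024_co.No

open Finset Filter Asymptotics

/-- The l-th xor-power of the Kneser graph KG(n,k). -/
def xorPow (l n k : ℕ) : SimpleGraph (Fin l → {X : Finset (Fin n) // #X = k}) where
  Adj X Y := X ≠ Y ∧ Odd #{i | Disjoint (X i).1 (Y i).1}
  symm := ⟨fun X Y h => ⟨h.1.symm, by simpa only [disjoint_comm] using h.2⟩⟩
  loopless := ⟨fun _ h => h.1 rfl⟩

noncomputable def f (l n k : ℕ) : ℕ := (xorPow l n k).cliqueNum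

def g (a b c : ℕ) : Fin 5 → ℕ × ℕ × ℕ :=
  ![(b, a + b, b), (a, b + c, a), (b, c, b + c), (c, a + b + c, c), (a, a + b, a + b + c)]

def pk (t : ℕ × ℕ × ℕ) (j : ℕ) : ℕ := if j = 0 then t.1 else if j = 1 then t.2.1 else t.2.2

theorem par (a b c x y z : ℕ) (h : ¬ (a = x ∧ b = y ∧ c = z)) :
    Odd #{i | pk (g a b c i) 0 ≠ pk (g x y z i) 0 ∧ pk (g a b c i) 1 ≠ pk (g x y z i) 1 ∧
      pk (g a b c i) 2 ≠ pk (g x y z i) 2} := by
  rw [card_filter, Fin.sum_univ_five, Nat.odd_iff]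
  change ((if b ≠ y ∧ a + b ≠ x + y ∧ b ≠ y then 1 else 0) +
    (if a ≠ x ∧ b + c ≠ y + z ∧ a ≠ x then 1 else 0) +
    (if b ≠ y ∧ c ≠ z ∧ b + c ≠ y + z then 1 else 0) +
    (if c ≠ z ∧ a + b + c ≠ x + y + z ∧ c ≠ z then 1 else 0) +
    (if a ≠ x ∧ a + b ≠ x + y ∧ a + b + c ≠ x + y + z then 1 else 0)) % 2 = 1
  split_ifs <;> omega

theorem low (n k : ℕ) (hk : 3 ≤ k) : (n / (3 * k)) ^ 3 ≤ f 5 n k := by
  classical
  set m := n / (3 * k) with hm
  have hn : k * (3 * m) ≤ n := by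
    have := Nat.mul_div_le n (3 * k)
    nlinarith
  set w : Fin m × Fin m × Fin m → Fin 5 → ℕ → ℕ := fun u i => pk (g u.1 u.2.1 u.2.2 i) with hw
  have wl : ∀ u i j, w u i j < 3 * m := by
    rintro ⟨a, b, c⟩ i j
    have := a.2; have := b.2; have := c.2
    simp only [hw, pk]
    fin_cases i <;> simp [g] <;> split_ifs <;> omega
  have lt : ∀ u i (j : Fin k), j * (3 * m) + w u i j < n := fun u i j => by
    have := wl u i j
    have := Nat.mul_le_mul_right (3 * m) (show j + 1 ≤ k from j.2)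
    nlinarith
  have inj : ∀ u v i (j j' : ℕ), j * (3 * m) + w u i j = j' * (3 * m) + w v i j' → j = j' := by
    intro u v i j j' h
    have h1 := wl u i j
    have h2 := wl v i j'
    rcases lt_trichotomy j j' with e | e | e
    · have := Nat.mul_le_mul_right (3 * m) (show j + 1 ≤ j' from e); nlinarith
    · exact e
    · have := Nat.mul_le_mul_right (3 * m) (show j' + 1 ≤ j from e); nlinarith
  set φ : Fin m × Fin m × Fin m → Fin 5 → {X : Finset (Fin n) // #X = k} := fun u i =>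
    ⟨univ.image fun j : Fin k => ⟨_, lt u i j⟩, by
      rw [card_image_of_injective _ fun j j' h => Fin.ext (inj u u i j j' (Fin.mk.inj h))]
      simp⟩ with hφ
  have dj : ∀ u v i, Disjoint (φ u i).1 (φ v i).1 ↔
      w u i 0 ≠ w v i 0 ∧ w u i 1 ≠ w v i 1 ∧ w u i 2 ≠ w v i 2 := fun u v i => by
    simp only [hφ, disjoint_left, mem_image, mem_univ, true_and, not_exists, forall_exists_index,
      forall_apply_eq_imp_iff, Fin.mk.injEq]
    constructor
    · intro h
      exact ⟨fun e => h ⟨0, by omega⟩ ⟨0, by omega⟩ (by simp [e]),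
        fun e => h ⟨1, by omega⟩ ⟨1, by omega⟩ (by simp [e]),
        fun e => h ⟨2, by omega⟩ ⟨2, by omega⟩ (by simp [e])⟩
    · intro h j j' e
      have := inj v u i j' j e
      rw [this] at e
      have e := Nat.add_left_cancel e
      have : w v i j = w v i 0 ∧ w u i j = w u i 0 ∨ w v i j = w v i 1 ∧ w u i j = w u i 1 ∨
          w v i j = w v i 2 ∧ w u i j = w u i 2 := by
        by_cases h0 : (j : ℕ) = 0
        · simp [h0]
        · by_cases h1 : (j : ℕ) = 1
          · simp [h1]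
          · simp [hw, pk, h0, h1]
      omega
  have od : ∀ u v, u ≠ v → Odd #{i | Disjoint (φ u i).1 (φ v i).1} := by
    rintro ⟨a, b, c⟩ ⟨x, y, z⟩ h
    simp only [dj]
    exact par a b c x y z (by simpa [Fin.ext_iff] using h)
  have ne : ∀ u v, u ≠ v → φ u ≠ φ v := fun u v h e => by
    have := od u v h
    rw [e, filter_false_of_mem fun i _ hh => ((dj v v i).1 hh).1 rfl] at this
    simp at this
  have cl : (xorPow 5 n k).IsClique (univ.image φ : Finset _) := by
    intro X hX Y hY h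
    simp only [coe_image, coe_univ, Set.image_univ, Set.mem_range] at hX hY
    obtain ⟨u, rfl⟩ := hX
    obtain ⟨v, rfl⟩ := hY
    exact ⟨h, od u v fun e => h (by rw [e])⟩
  have := cl.card_le_cliqueNum
  rw [card_image_of_injective _ fun u v e => by_contra fun h => ne u v h e] at this
  simpa [pow_succ, mul_assoc, f] using this

theorem result : (∀ n k, 3 ≤ k → (n / (3 * k)) ^ 3 ≤ f 5 n k) ∧
    ¬ ∀ l, 1 ≤ l → ∃ k₀, ∀ k, k₀ ≤ k →
      (fun n => (f l n k : ℝ)) =Θ[atTop] fun n : ℕ => (n : ℝ) ^ Nat.log 2 (l + 1) := by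
  refine ⟨low, fun H => ?_⟩
  obtain ⟨k₀, H⟩ := H 5 (by norm_num)
  obtain ⟨C, hC⟩ := (H (k₀ + 3) (by omega)).1.bound
  obtain ⟨N, hN⟩ := eventually_atTop.1 hC
  set k := k₀ + 3
  obtain ⟨M, hM⟩ := exists_nat_gt (C * (3 * k) ^ 2)
  have h1 := hN (3 * k * (M + N + 1)) (by nlinarith [show 3 ≤ k by omega])
  have h2 := low (3 * k * (M + N + 1)) k (by omega)
  rw [Nat.mul_div_cancel_left _ (by omega)] at h2
  have h3 : ((M + N + 1 : ℝ)) ^ 3 ≤ f 5 (3 * k * (M + N + 1)) k := by exact_mod_cast h2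
  rw [show Nat.log 2 (5 + 1) = 2 by norm_num, Real.norm_natCast,
    Real.norm_of_nonneg (by positivity)] at h1
  push_cast at h1
  have h4 : (0 : ℝ) < (M + N + 1) ^ 2 := by positivity
  have h5 : (0 : ℝ) ≤ N := by positivity
  nlinarith [mul_lt_mul_of_pos_right hM h4]

end Pool.Agent.Results.MP_e3e024_co.No
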